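import Pool.Agent.Q25.RSet3

set_option autoImplicit false

/-!
# The Goldbach-type problem for polynomials over ARBITRARY sets of arguments, for almost all `N`

Let `G (n) = α n² + β n` be of degree one or two with positive leading coefficient, let `F_1, ..., F_g` be ANY
polynomials (their degrees are arbitrary), and let `S` be ANY set of natural numbers. Let `n` be a random integer below
`b ^ k` with independent digits (for instance uniformly distributed, or with restricted digits). For almost all `N` of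
the order of `b ^ (k deg G)` the probability that `n` is in `S` and that `F_1 (n), ..., F_g (n), N - G (n)` are all
primes is predicted by the `n` in `S` such that `F_1 (n), ..., F_g (n)` are primes and `N - G (n)` has no prime factor
up to `z`, where `z` is only a power of `k`, i.e. of `log N`.
-/

namespace Pool.Agent.Results.MP_0bf1d2_nt.ArbitraryArguments

open Finset Polynomial

/-- `w i d` is the probability that the digit number `i` is equal to `d`; no digit has a probability larger than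
`1 - η` -/
structure Digits (b : ℕ) (η : ℝ) (w : ℕ → ℕ → ℝ) : Prop where
  nonneg : ∀ i d, 0 ≤ w i d
  sum : ∀ i, ∑ d ∈ range b, w i d = 1
  le : ∀ i d, w i d ≤ 1 - η

/-- the probability of the integer `n < b ^ k`, the product of the probabilities of its digits -/
noncomputable def weight (b : ℕ) (w : ℕ → ℕ → ℝ) (k n : ℕ) : ℝ := ∏ i ∈ range k, w i (n / b ^ i % b)

open Classical in
/-- the probability that `n < b ^ k` has the property `T` -/
noncomputable def prob (b : ℕ) (w : ℕ → ℕ → ℝ) (k : ℕ) (T : ℕ → Prop) : ℝ :=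
  ∑ n ∈ (range (b ^ k)).filter T, weight b w k n

/-- `G (n) = α n² + β n` -/
def G (α β : ℤ) (n : ℕ) : ℤ := α * (n : ℤ) ^ 2 + β * n

/-- the degree of `G` -/
def deg (α : ℤ) : ℕ := if α = 0 then 1 else 2

/-- the integer is a (positive) prime -/
def IsPrime (v : ℤ) : Prop := ∃ q : ℕ, q.Prime ∧ v = q

/-- the arguments: `n` is in `S` and all the `F i (n)` are primes -/
def Arg (S : Set ℕ) {g : ℕ} (F : Fin g → ℤ[X]) (n : ℕ) : Prop := n ∈ S ∧ ∀ i, IsPrime ((F i).eval (n : ℤ))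

/-- `n` is an argument and `N - G (n)` is a prime -/
def Hit (S : Set ℕ) {g : ℕ} (F : Fin g → ℤ[X]) (α β : ℤ) (N n : ℕ) : Prop := Arg S F n ∧ IsPrime (N - G α β n)

open Classical in
/-- the expectation of `log (N - G (n))`, counted only if `n` is an argument and `N - G (n)` is a prime -/
noncomputable def R (b : ℕ) (w : ℕ → ℕ → ℝ) (k : ℕ) (S : Set ℕ) {g : ℕ} (F : Fin g → ℤ[X]) (α β : ℤ) (N : ℕ) : ℝ :=
  ∑ n ∈ (range (b ^ k)).filter (Hit S F α β N), weight b w k n * Real.log ((N - G α β n : ℤ) : ℝ)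

/-- the primes up to `z` -/
def primes (z : ℕ) : Finset ℕ := (Icc 1 z).filter Nat.Prime

/-- the prediction: the probability that `n` is an argument and that `N - G (n)` is positive and has no prime factor up
to `z`, divided by the product of `1 - 1 / p` over the primes `p ≤ z` -/
noncomputable def M (b : ℕ) (w : ℕ → ℕ → ℝ) (k z : ℕ) (S : Set ℕ) {g : ℕ} (F : Fin g → ℤ[X]) (α β : ℤ) (N : ℕ) : ℝ :=
  (∏ p ∈ primes z, (1 - 1 / (p : ℝ)))⁻¹ *
    prob b w k (fun n => Arg S F n ∧ 1 ≤ N - G α β n ∧ ∀ p ∈ primes z, ¬ (p : ℤ) ∣ N - G α β n)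

/-- the expectation is predicted up to `k ^ (-U)`, and the probability that `n` is an argument and `N - G (n)` is a
prime up to a factor `1 ± ε` and up to `k ^ (-U)` -/
def Good (b : ℕ) (w : ℕ → ℕ → ℝ) (k z U : ℕ) (ε : ℝ) (S : Set ℕ) {g : ℕ} (F : Fin g → ℤ[X]) (α β : ℤ) (N : ℕ) : Prop :=
  |R b w k S F α β N - M b w k z S F α β N| ≤ 1 / (k : ℝ) ^ U ∧
  |deg α * k * Real.log b * prob b w k (Hit S F α β N) - M b w k z S F α β N| ≤
    ε * M b w k z S F α β N + 1 / (k : ℝ) ^ U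

section aux
open Pool.Agent.TH872.Sq Pool.Agent.Q25.RDig
open Pool.Agent.H373R2.T7 (pz Vz mem_pz)

lemma val_eq (α β : ℤ) (N n : ℕ) : qv (-α) (-β) n + 1 * (N : ℤ) = N - G α β n := by unfold qv G; ring

lemma isPrime_iff (v : ℤ) : v.toNat.Prime ↔ IsPrime v := by
  unfold IsPrime
  constructor
  · intro h
    exact ⟨_, h, by have := h.pos; omega⟩
  · rintro ⟨q, hq, h⟩
    rw [h, Int.toNat_natCast]
    exact hq

lemma PS_eq (b : ℕ) (w : ℕ → ℕ → ℝ) (k : ℕ) (S : Set ℕ) {g : ℕ} (F : Fin g → ℤ[X]) (α β : ℤ) (N : ℕ) :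
    PS b w k {n | Arg S F n} (fun _ : Fin 1 => -α) (fun _ => -β) (fun _ => 1 * (N : ℤ)) = prob b w k (Hit S F α β N) := by
  unfold PS prob P weight
  simp only [zero_add]
  refine sum_congr (Finset.ext fun n => ?_) (fun _ _ => rfl)
  simp only [mem_filter, val_eq, isPrime_iff, Set.mem_ofPred_eq]
  unfold Hit
  exact ⟨fun h => ⟨h.1, h.2.1, h.2.2 0⟩, fun h => ⟨h.1, h.2.1, fun _ => h.2.2⟩⟩

lemma ES_eq' (b : ℕ) (w : ℕ → ℕ → ℝ) (k : ℕ) (S : Set ℕ) {g : ℕ} (F : Fin g → ℤ[X]) (α β : ℤ) (N : ℕ) :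
    ES b w k {n | Arg S F n} (fun _ : Fin 1 => -α) (fun _ => -β) (fun _ => 1 * (N : ℤ)) = R b w k S F α β N := by
  unfold ES R P weight
  simp only [zero_add]
  refine sum_congr (Finset.ext fun n => ?_) (fun n _ => ?_)
  · simp only [mem_filter, val_eq, isPrime_iff, Set.mem_ofPred_eq]
    unfold Hit
    exact ⟨fun h => ⟨h.1, h.2.1, h.2.2 0⟩, fun h => ⟨h.1, h.2.1, fun _ => h.2.2⟩⟩
  · simp only [Fin.prod_univ_one, val_eq]

lemma MS_eq' (b : ℕ) (w : ℕ → ℕ → ℝ) (k z : ℕ) (S : Set ℕ) {g : ℕ} (F : Fin g → ℤ[X]) (α β : ℤ) (N : ℕ) :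
    MS b w k z {n | Arg S F n} (fun _ : Fin 1 => -α) (fun _ => -β) (fun _ => 1 * (N : ℤ)) = M b w k z S F α β N := by
  unfold MS M prob P weight
  simp only [zero_add]
  have e0 : (∏ p ∈ primes z, (1 - 1 / (p : ℝ))) = Vz z := rfl
  rw [e0, pow_one]
  congr 1
  refine sum_congr (Finset.ext fun n => ?_) (fun _ _ => rfl)
  simp only [mem_filter, val_eq, Set.mem_ofPred_eq]
  have e1 : primes z = pz z := rfl
  rw [e1]
  have h : ∀ v : ℤ, 1 ≤ v → ((∀ p ∈ pz z, ¬ p ∣ v.toNat) ↔ ∀ p ∈ pz z, ¬ (p : ℤ) ∣ v) := by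
    intro v hv
    apply forall₂_congr
    intro p _
    have h2 : ((v.toNat : ℕ) : ℤ) = v := Int.toNat_of_nonneg (by omega)
    rw [← Int.natCast_dvd_natCast, h2]
  constructor
  · rintro ⟨h1, h2, h3⟩
    exact ⟨h1, h2, (h3 0).1, (h _ (h3 0).1).1 (h3 0).2⟩
  · rintro ⟨h1, h2, h3, h4⟩
    exact ⟨h1, h2, fun _ => ⟨h3, (h _ h3).2 h4⟩⟩

end aux

open Classical in
/-- **Transference for Schinzel's Goldbach-type hypothesis over arbitrary sets of arguments, for almost all `N`.** -/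
theorem result (b : ℕ) (hb : 2 ≤ b) (η : ℝ) (hη : 0 < η) (α β : ℤ) (hG : 0 < α ∨ α = 0 ∧ 0 < β)
    (C U : ℕ) (ε : ℝ) (hε : 0 < ε) :
    ∃ B : ℕ, ∀ E : ℕ, ∃ K₀ : ℕ, ∀ k : ℕ, K₀ ≤ k → ∀ z : ℕ, (k : ℝ) ^ B ≤ z → (z : ℝ) ≤ (k : ℝ) ^ E →
    ∀ w : ℕ → ℕ → ℝ, Digits b η w → ∀ (S : Set ℕ) (g : ℕ) (F : Fin g → ℤ[X]),
    ∀ X : ℕ, b ^ (deg α * k) ≤ X → X ≤ C * b ^ (deg α * k) →
    (((Icc 1 X).filter (fun N => ¬ Good b w k z U ε S F α β N)).card : ℝ) ≤ X / (k : ℝ) ^ U := by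
  have hdg : Pool.Agent.TH872.Sq.dg (-α) = deg α := by
    unfold Pool.Agent.TH872.Sq.dg deg
    simp only [neg_eq_zero]
  have hld : Pool.Agent.TH872.Sq.ld (-α) (-β) ≠ 0 := by
    unfold Pool.Agent.TH872.Sq.ld
    rcases hG with h | ⟨h1, h2⟩
    · rw [if_neg (by omega)]
      omega
    · rw [if_pos (by omega)]
      omega
  obtain ⟨B, h1⟩ := Pool.Agent.Q25.RDig.set_any b hb η hη 1 (fun _ => -α) (fun _ => -β) (fun _ => hld) C U ε hε
  refine ⟨B, fun E => ?_⟩
  obtain ⟨K₀, h2⟩ := h1 E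
  refine ⟨K₀, fun k hk z hz1 hz2 w hw S g F X hX1 hX2 => ?_⟩
  have h3 := h2 k hk z hz1 hz2 w ⟨hw.nonneg, hw.sum, hw.le⟩ {n | Arg S F n} (fun _ => 1) (fun _ => Or.inl rfl)
    (fun _ => X) (fun _ => by
      show b ^ (Pool.Agent.TH872.Sq.dg (-α) * k) ≤ X ∧ X ≤ C * b ^ (Pool.Agent.TH872.Sq.dg (-α) * k)
      rw [hdg]
      exact ⟨hX1, hX2⟩) (fun c => ¬ Good b w k z U ε S F α β (c 0)) (by
      intro c _ hc
      have ec : (fun j : Fin 1 => 1 * (c j : ℤ)) = fun _ => 1 * ((c 0 : ℕ) : ℤ) := by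
        funext j
        rw [Subsingleton.elim j 0]
      rw [ec, MS_eq', ES_eq', PS_eq]
      have eL : Pool.Agent.Q25.RDig.LL b k (fun _ : Fin 1 => -α) = deg α * k * Real.log b := by
        unfold Pool.Agent.Q25.RDig.LL
        rw [Fin.prod_univ_one, hdg]
      rw [eL]
      exact hc)
  rw [Fin.prod_univ_one] at h3
  refine le_trans ?_ h3
  have h4 : ((Icc 1 X).filter (fun N => ¬ Good b w k z U ε S F α β N)).card ≤
      ((Fintype.piFinset (fun _ : Fin 1 => Icc 1 X)).filter (fun c => ¬ Good b w k z U ε S F α β (c 0))).card := by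
    apply card_le_card_of_injOn (fun N _ => N)
    · intro N hN
      rw [mem_coe, mem_filter] at hN
      rw [mem_coe, mem_filter, Fintype.mem_piFinset]
      exact ⟨fun _ => hN.1, hN.2⟩
    · intro N _ N' _ h
      exact congrFun h 0
  exact_mod_cast h4

end Pool.Agent.Results.MP_0bf1d2_nt.ArbitraryArguments
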