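import Pool.Agent.Q25.RDig1

set_option autoImplicit false

/-!
# Schinzel's Goldbach-type hypothesis for integers with random digits, for almost all `N` and constant terms

Let `n < b ^ k` be a random integer with independent digits (for instance uniformly distributed, or with restricted
digits). We consider systems of polynomials `P_j (n) = κ_j n² + β_j n + c_j` of degree one or two whose leading
coefficients have ANY signs: those with a negative leading coefficient are of the form `N - G (n)`. For almost all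
vectors `c` of the right order for which all the values at the `n < b ^ k` are positive, the probability that all the
`P_j (n)` are primes is given by the local densities up to a factor `1 ± ε`, and the expectation of the product of
their logarithms up to `k ^ (-U)`.
-/

namespace Pool.Agent.Results.MP_0bf1d2_nt.RandomDigits

open Finset

/-- `w i d` is the probability that the digit number `i` is equal to `d`; no digit has a probability larger than
`1 - η` -/
structure Digits (b : ℕ) (η : ℝ) (w : ℕ → ℕ → ℝ) : Prop where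
  nonneg : ∀ i d, 0 ≤ w i d
  sum : ∀ i, ∑ d ∈ range b, w i d = 1
  le : ∀ i d, w i d ≤ 1 - η

/-- the probability of the integer `n < b ^ k`, the product of the probabilities of its digits -/
noncomputable def weight (b : ℕ) (w : ℕ → ℕ → ℝ) (k n : ℕ) : ℝ := ∏ i ∈ range k, w i (n / b ^ i % b)

open Classical in
/-- the probability that `n < b ^ k` has the property `S` -/
noncomputable def prob (b : ℕ) (w : ℕ → ℕ → ℝ) (k : ℕ) (S : ℕ → Prop) : ℝ :=
  ∑ n ∈ (range (b ^ k)).filter S, weight b w k n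

/-- the value of the polynomial `κ x² + β x + c` at `n` -/
def P (κ β : ℤ) (c : ℕ) (n : ℕ) : ℤ := κ * (n : ℤ) ^ 2 + β * n + c

/-- the degree of this polynomial (if `κ` and `β` are not both `0`) -/
def deg (κ : ℤ) : ℕ := if κ = 0 then 1 else 2

/-- all the values at `n` are (positive) primes -/
def AllPrime {r : ℕ} (κ β : Fin r → ℤ) (c : Fin r → ℕ) (n : ℕ) : Prop :=
  ∀ j, ∃ q : ℕ, q.Prime ∧ P (κ j) (β j) (c j) n = q

/-- all the values at the `n < b ^ k` are positive -/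
def Positive (b k : ℕ) {r : ℕ} (κ β : Fin r → ℤ) (c : Fin r → ℕ) : Prop :=
  ∀ j, ∀ n < b ^ k, 0 < P (κ j) (β j) (c j) n

open Classical in
/-- the expectation of the product of the logarithms of the values, counted only if they are all primes -/
noncomputable def R (b : ℕ) (w : ℕ → ℕ → ℝ) (k : ℕ) {r : ℕ} (κ β : Fin r → ℤ) (c : Fin r → ℕ) : ℝ :=
  ∑ n ∈ (range (b ^ k)).filter (AllPrime κ β c), weight b w k n * ∏ j, Real.log (P (κ j) (β j) (c j) n : ℝ)

/-- the primes up to `z` -/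
def primes (z : ℕ) : Finset ℕ := (Icc 1 z).filter Nat.Prime

/-- the number `ω(p)` of the residues `a` modulo `p` at which `p` divides one of the values -/
def omega {r : ℕ} (κ β : Fin r → ℤ) (c : Fin r → ℕ) (p : ℕ) : ℕ :=
  ((range p).filter (fun a : ℕ => ∃ j, (p : ℤ) ∣ P (κ j) (β j) (c j) a)).card

/-- the prediction: the factor at the primes up to the base `b`, and the product over the primes `p` with
`b < p ≤ z` of `(1 - ω(p) / p) / (1 - 1 / p) ^ r` -/
noncomputable def sigma (b : ℕ) (w : ℕ → ℕ → ℝ) (k z : ℕ) {r : ℕ} (κ β : Fin r → ℤ) (c : Fin r → ℕ) : ℝ :=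
  (∏ p ∈ primes b, (1 - 1 / (p : ℝ)))⁻¹ ^ r *
    prob b w k (fun n => ∀ p ∈ primes b, ∀ j, ¬ (p : ℤ) ∣ P (κ j) (β j) (c j) n) *
    ∏ p ∈ (primes z).filter (fun p => b < p), ((1 - (omega κ β c p : ℝ) / p) / (1 - 1 / (p : ℝ)) ^ r)

/-- the expectation is predicted up to `k ^ (-U)`, and the probability that all the values are primes up to a factor
`1 ± ε` and up to `k ^ (-U)` -/
def Good (b : ℕ) (w : ℕ → ℕ → ℝ) (k z U : ℕ) (ε : ℝ) {r : ℕ} (κ β : Fin r → ℤ) (c : Fin r → ℕ) : Prop :=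
  |R b w k κ β c - sigma b w k z κ β c| ≤ 1 / (k : ℝ) ^ U ∧
  |(∏ j, (deg (κ j) : ℝ) * k * Real.log b) * prob b w k (AllPrime κ β c) - sigma b w k z κ β c| ≤
    ε * sigma b w k z κ β c + 1 / (k : ℝ) ^ U

section aux
open Pool.Agent.TH872.Sq Pool.Agent.Q25.RDig
open Pool.Agent.H373R2.T7 (pz Vz mem_pz)

lemma val_eq (κ β : ℤ) (c n : ℕ) : P κ β c n = qv κ β n + 1 * (c : ℤ) := by unfold P qv; ring

lemma all_iff {r : ℕ} (κ β : Fin r → ℤ) (c : Fin r → ℕ) (n : ℕ) :
    AllPrime κ β c n ↔ ∀ j, (qv (κ j) (β j) n + 1 * (c j : ℤ)).toNat.Prime := by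
  unfold AllPrime
  apply forall_congr'
  intro j
  rw [val_eq]
  constructor
  · rintro ⟨q, hq, h⟩
    rw [h, Int.toNat_natCast]
    exact hq
  · intro h
    exact ⟨_, h, by have := h.pos; omega⟩

lemma Pr_eq (b : ℕ) (w : ℕ → ℕ → ℝ) (k : ℕ) {r : ℕ} (κ β : Fin r → ℤ) (c : Fin r → ℕ) :
    Pr b w k κ β (fun j => 1 * (c j : ℤ)) = prob b w k (AllPrime κ β c) := by
  unfold Pr prob weight Pool.Agent.TH872.Sq.P
  simp only [zero_add]
  refine sum_congr (Finset.ext fun n => ?_) (fun _ _ => rfl)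
  simp only [mem_filter, all_iff]

lemma E1_eq' (b : ℕ) (w : ℕ → ℕ → ℝ) (k : ℕ) {r : ℕ} (κ β : Fin r → ℤ) (c : Fin r → ℕ) :
    E1 b w k κ β (fun j => 1 * (c j : ℤ)) = R b w k κ β c := by
  rw [E1_eq]
  unfold R weight Pool.Agent.TH872.Sq.P
  simp only [zero_add]
  refine sum_congr (Finset.ext fun n => ?_) (fun n _ => ?_)
  · simp only [mem_filter, all_iff]
  · simp only [val_eq]

lemma Sg_eq' (b : ℕ) (w : ℕ → ℕ → ℝ) (k : ℕ) {r : ℕ} (κ β : Fin r → ℤ) (c : Fin r → ℕ) (z : ℕ) (hz : b ≤ z) :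
    Sg b w 0 k κ β (fun j => 1 * (c j : ℤ)) z = sigma b w k z κ β c := by
  simp only [one_mul]
  rw [Sg_split b w k _ _ _ z hz]
  unfold sigma prob weight Pool.Agent.TH872.Sq.P
  simp only [zero_add]
  have h1 : ∑ n ∈ (range (b ^ k)).filter (fun n : ℕ => ∀ p ∈ pz b, ¬ ∃ j, (p : ℤ) ∣ κ j * (n : ℤ) ^ 2 + β j * n + (c j : ℤ)),
      ∏ x ∈ range k, w x (n / b ^ x % b) = ∑ n ∈ @Finset.filter ℕ (fun n => ∀ p ∈ primes b, ∀ j, ¬ (p : ℤ) ∣ P (κ j) (β j) (c j) n)
        (fun n => Classical.propDecidable _) (range (b ^ k)), ∏ x ∈ range k, w x (n / b ^ x % b) := by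
    refine sum_congr (Finset.ext fun n => ?_) (fun _ _ => rfl)
    simp only [mem_filter, not_exists]
    rfl
  rw [h1]
  rfl

end aux

open Classical in
/-- **Schinzel's Goldbach-type hypothesis for polynomials of degree one and two, for integers with independent random
digits, for almost all constant terms.** -/
theorem result (b : ℕ) (hb : 2 ≤ b) (η : ℝ) (hη : 0 < η) (r : ℕ) (κ β : Fin r → ℤ)
    (hκ : ∀ j, κ j ≠ 0 ∨ β j ≠ 0) (C U : ℕ) (ε : ℝ) (hε : 0 < ε) :
    ∃ B : ℕ, ∀ E : ℕ, ∃ K₀ : ℕ, ∀ k : ℕ, K₀ ≤ k → ∀ z : ℕ, (k : ℝ) ^ B ≤ z → (z : ℝ) ≤ (k : ℝ) ^ E →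
    ∀ w : ℕ → ℕ → ℝ, Digits b η w →
    ∀ X : Fin r → ℕ, (∀ j, b ^ (deg (κ j) * k) ≤ X j ∧ X j ≤ C * b ^ (deg (κ j) * k)) →
    (((Fintype.piFinset (fun j : Fin r => Icc 1 (X j))).filter
      (fun c => Positive b k κ β c ∧ ¬ Good b w k z U ε κ β c)).card : ℝ) ≤ (∏ j, (X j : ℝ)) / (k : ℝ) ^ U := by
  have hdg : ∀ j, Pool.Agent.TH872.Sq.dg (κ j) = deg (κ j) := fun _ => rfl
  have hld : ∀ j, Pool.Agent.TH872.Sq.ld (κ j) (β j) ≠ 0 := by
    intro j
    unfold Pool.Agent.TH872.Sq.ld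
    split_ifs with h
    · rcases hκ j with h1 | h1
      · exact absurd h h1
      · exact h1
    · exact h
  obtain ⟨B, h1⟩ := Pool.Agent.Q25.RDig.main b hb η hη r κ β hld C U ε hε
  refine ⟨B + 1, fun E => ?_⟩
  obtain ⟨K₀, h2⟩ := h1 E
  refine ⟨K₀ + b, fun k hk z hz1 hz2 w hw X hX => ?_⟩
  have hk1 : (1 : ℝ) ≤ k := by exact_mod_cast (by omega : 1 ≤ k)
  have hbz : b ≤ z := by
    have h4 : (k : ℝ) ≤ (k : ℝ) ^ (B + 1) := le_self_pow₀ hk1 (by omega)
    have h5 : (k : ℝ) ≤ z := h4.trans hz1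
    have h6 : k ≤ z := by exact_mod_cast h5
    omega
  apply h2 k (by omega) z ((pow_le_pow_right₀ hk1 (Nat.le_succ B)).trans hz1) hz2 w ⟨hw.nonneg, hw.sum, hw.le⟩
    (fun _ => 1) (fun _ => Or.inl rfl) X (fun j => by rw [hdg]; exact hX j)
  intro c _ hc
  refine ⟨fun j n hn => ?_, ?_⟩
  · have := hc.1 j n hn
    rw [val_eq] at this
    omega
  · rw [Sg_eq' b w k κ β c z hbz, E1_eq', Pr_eq]
    have eL : Pool.Agent.Q25.RDig.LL b k κ = ∏ j, (deg (κ j) : ℝ) * k * Real.log b := rfl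
    rw [eL]
    exact hc.2

end Pool.Agent.Results.MP_0bf1d2_nt.RandomDigits
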