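import Pool.Agent.Y816.PD.UniL

/-!
# Schinzel's Goldbach-type hypothesis in almost primes for EVERY `N` and ALL polynomials, at integers with restricted digits

Let `g ≥ 2` be a base and `K` a large number of digits. For every `i < K` let `A i` be an arbitrary non-empty set of digits. Nothing
is assumed about these sets except that they are not too small on average: the number `|A 0| ⋯ |A (K - 1)|` of the integers
`n < g ^ K` whose `i`-th digit belongs to `A i` for all `i < K` is at least `exp (- c K) g ^ K`, where `c > 0` does not depend on the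
base. (For example, a digit is missing everywhere and the base is large; or the digits at an arbitrary set of at most `c' K` places
are prescribed.)

Let `F_1, ..., F_s` and `G` be ANY integer polynomials of degree at most `h`, and `N` ANY natural number such that
`F_1 ⋯ F_s (N - G)` has no fixed prime divisor (no irreducibility is needed), with `|F_i(n)|` and `|N - G(n)|` at most `g ^ (E K)`
for `n < g ^ K` (`E` is arbitrary; if the polynomials are fixed, this holds for all large `K` and all `N` up to a power of `g ^ K`).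
The numbers `n < g ^ K` with digits in the sets `A i` for which all the numbers `F_1(n), ..., F_s(n)` and `N - G(n)` have at most `r`
prime factors, all greater than `g ^ (K / r)`, are counted up to a constant factor: their number is at least
`κ V |A 0| ⋯ |A (K - 1)|`, `V` being the product over the primes `p ≤ g ^ K` of `1 - ω_N(p) / p`, where `ω_N(p)` is the number of the
`n` modulo `p` with `p ∣ F_1(n) ⋯ F_s(n) (N - G(n))` (the expected order, with the local densities of the singular series), unless
there is an obvious obstruction (no digit `d` in `A 0` such that `F_1(d) ⋯ F_s(d) (N - G(d))` is prime to `g`). The number of the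
`n < g ^ K` with these digits for which none of these numbers has a prime factor `≤ n ^ (1 / r)` (for instance they are primes
greater than `n ^ (1 / r)`) is at most `C V |A 0| ⋯ |A (K - 1)|`. The constants depend only on `s`, `h`, `E`, `r` and `g`: they are
independent of `N`, of all the polynomials and of the sets `A i`.

Proof. The theorem on almost prime values of polynomials at integers with restricted digits, uniform in the polynomial, of the
starting library (`Pool.Agent.Y816.PD.uni_fun`), applied to `F_1 ⋯ F_s (N - G)`.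
-/

set_option autoImplicit false

namespace Pool.Agent.Results.MP_0bf1d2_nt.RestrictedDigits

open Filter Finset Polynomial

/-- The `i`-th digit of `n` in base `g` (counted from the right, beginning with `0`) belongs to `A i` for all `i < K`. -/
def HasDigits (g K : ℕ) (A : ℕ → Finset ℕ) (n : ℕ) : Prop := ∀ i < K, n / g ^ i % g ∈ A i

/-- The number of the choices of `K` digits in the sets `A i`. -/
def choices (K : ℕ) (A : ℕ → Finset ℕ) : ℕ := ∏ i ∈ range K, (A i).card

/-- No prime factor `p` of `z` satisfies `p ^ r ≤ y`. -/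
def Rough (y r : ℕ) (z : ℤ) : Prop := ∀ p : ℕ, p.Prime → (p : ℤ) ∣ z → y < p ^ r

/-- `z` has at most `r` prime factors (counted with multiplicity), and all of them are larger than `y ^ (1 / r)`. -/
def AlmostPrime (y r : ℕ) (z : ℤ) : Prop := Rough y r z ∧ z.natAbs.primeFactorsList.length ≤ r

/-- The product `F_1(n) ⋯ F_s(n) (N - G(n))`. -/
noncomputable def value {s : ℕ} (F : Fin s → ℤ[X]) (G : ℤ[X]) (N n : ℕ) : ℤ :=
  (∏ i, (F i).eval (n : ℤ)) * (N - G.eval (n : ℤ))

open Classical in
/-- The number of the `n` modulo `p` with `p ∣ F_1(n) ⋯ F_s(n) (N - G(n))`. -/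
noncomputable def omega {s : ℕ} (F : Fin s → ℤ[X]) (G : ℤ[X]) (N p : ℕ) : ℕ :=
  ((range p).filter fun n : ℕ => (p : ℤ) ∣ value F G N n).card

/-- The product of `1 - ω_N(p) / p` over the primes `p ≤ y`. -/
noncomputable def density {s : ℕ} (F : Fin s → ℤ[X]) (G : ℤ[X]) (N y : ℕ) : ℝ :=
  ∏ p ∈ (Icc 1 y).filter Nat.Prime, (1 - (omega F G N p : ℝ) / p)

open Classical in
/-- The number of the `n < g ^ K` with the digits `A i` which have the property `P`. -/
noncomputable def count (g K : ℕ) (A : ℕ → Finset ℕ) (P : ℕ → Prop) : ℕ :=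
  ((range (g ^ K)).filter fun n => HasDigits g K A n ∧ P n).card

lemma ND_le_count {g K : ℕ} {A : ℕ → Finset ℕ} {S : Set ℕ} {P : ℕ → Prop} (h : ∀ n < g ^ K, n ∈ S → P n) :
    Pool.Agent.Y816.PD.ND g K A S ≤ count g K A P := by
  classical
  unfold Pool.Agent.Y816.PD.ND count
  apply card_le_card
  intro n hn
  have h1 := mem_filter.1 hn
  exact mem_filter.2 ⟨h1.1, h1.2.1, h n (mem_range.1 h1.1) h1.2.2⟩

lemma count_le_ND {g K : ℕ} {A : ℕ → Finset ℕ} {S : Set ℕ} {P : ℕ → Prop} (h : ∀ n < g ^ K, P n → n ∈ S) :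
    count g K A P ≤ Pool.Agent.Y816.PD.ND g K A S := by
  classical
  unfold Pool.Agent.Y816.PD.ND count
  apply card_le_card
  intro n hn
  have h1 := mem_filter.1 hn
  exact mem_filter.2 ⟨h1.1, h1.2.1, h n (mem_range.1 h1.1) h1.2.2⟩

open Pool.Agent.Y816.PD in
lemma choices_eq (K : ℕ) (A : ℕ → Finset ℕ) : (choices K A : ℝ) = NA K A := by
  unfold choices NA
  push_cast
  rfl

lemma length_le_of_dvd {x y : ℤ} (h : x ∣ y) (hy : y ≠ 0) :
    x.natAbs.primeFactorsList.length ≤ y.natAbs.primeFactorsList.length :=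
  (Nat.primeFactorsList_sublist_of_dvd (Int.natAbs_dvd_natAbs.2 h) (Int.natAbs_ne_zero.2 hy)).length_le

/-- **Schinzel's Goldbach-type hypothesis in almost primes for every `N`, uniformly in all the polynomials, at integers with
restricted digits.** -/
theorem result (s h E : ℕ) (hh : 1 ≤ h) :
    ∃ c : ℝ, 0 < c ∧ ∃ r₀ : ℕ, 2 ≤ r₀ ∧ ∀ r : ℕ, r₀ ≤ r → ∀ g : ℕ, 2 ≤ g → ∃ κ C : ℝ, 0 < κ ∧ 0 < C ∧
      ∀ᶠ K : ℕ in atTop, ∀ (F : Fin s → ℤ[X]) (G : ℤ[X]), (∀ i, (F i).natDegree ≤ h) → G.natDegree ≤ h →
        ∀ N : ℕ, (∀ p : ℕ, p.Prime → ∃ n : ℕ, ¬ (p : ℤ) ∣ value F G N n) →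
          (∀ n < g ^ K, (∀ i, |(F i).eval (n : ℤ)| ≤ (g : ℤ) ^ (E * K)) ∧
            |(N : ℤ) - G.eval (n : ℤ)| ≤ (g : ℤ) ^ (E * K)) →
          ∀ A : ℕ → Finset ℕ, (∀ i < K, A i ⊆ range g) → (g : ℝ) ^ K ≤ Real.exp (c * K) * choices K A →
            ((∃ d ∈ A 0, (value F G N d).natAbs.Coprime g) →
              κ * density F G N (g ^ K) * choices K A ≤
                count g K A fun n => (∀ i, AlmostPrime (g ^ K) r ((F i).eval (n : ℤ))) ∧
                  AlmostPrime (g ^ K) r (N - G.eval (n : ℤ))) ∧
            (count g K A (fun n => (∀ i, Rough n r ((F i).eval (n : ℤ))) ∧ Rough n r (N - G.eval (n : ℤ))) : ℝ) ≤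
              C * density F G N (g ^ K) * choices K A := by
  classical
  obtain ⟨c, hc, r0, hr0, h'⟩ := Pool.Agent.Y816.PD.uni_fun ((s + 1) * h) ((s + 1) * E)
    (Nat.one_le_iff_ne_zero.2 (by positivity))
  refine ⟨c, hc, r0, hr0, fun r hr g hg => ?_⟩
  obtain ⟨κ, C, hκ, hC, h1⟩ := h' r hr g hg
  refine ⟨κ, C, hκ, hC, ?_⟩
  filter_upwards [h1, eventually_ge_atTop (r + 1)] with K hK hK2
  intro F G hF hG N hadm hsize A hA hprod
  have h2r : 2 ^ r ≤ g ^ K :=
    (Nat.pow_le_pow_left hg r).trans (Nat.pow_le_pow_right (by omega) (by omega))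
  obtain ⟨hlow, hup⟩ := hK (value F G N) ⟨(∏ i, F i) * (Polynomial.C (N : ℤ) - G), by
      refine (natDegree_mul_le).trans ?_
      have e1 : (∏ i, F i).natDegree ≤ s * h := by
        refine (natDegree_prod_le _ _).trans ?_
        refine (sum_le_card_nsmul _ _ h fun i _ => hF i).trans ?_
        simp
      have e2 : (Polynomial.C (N : ℤ) - G).natDegree ≤ h := by
        refine (natDegree_sub_le _ _).trans ?_
        rw [natDegree_C]
        exact max_le (Nat.zero_le _) hG
      calc (∏ i, F i).natDegree + (Polynomial.C (N : ℤ) - G).natDegree ≤ s * h + h := Nat.add_le_add e1 e2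
        _ = (s + 1) * h := by ring, fun n => by simp [value, eval_prod]⟩
    hadm
    (fun n hn => by
      obtain ⟨e1, e2⟩ := hsize n hn
      have e3 : |value F G N n| ≤ (g : ℤ) ^ ((s + 1) * E * K) := by
        unfold value
        rw [abs_mul, abs_prod]
        calc (∏ i, |(F i).eval (n : ℤ)|) * |(N : ℤ) - G.eval (n : ℤ)|
            ≤ (∏ _i : Fin s, (g : ℤ) ^ (E * K)) * (g : ℤ) ^ (E * K) :=
              mul_le_mul (prod_le_prod (fun i _ => abs_nonneg _) fun i _ => e1 i) e2 (abs_nonneg _)
                (prod_nonneg fun i _ => by positivity)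
          _ = (g : ℤ) ^ ((s + 1) * E * K) := by
              rw [prod_const, card_univ, Fintype.card_fin, ← pow_mul, ← pow_add]
              congr 1
              ring
      have e5 : ((value F G N n).natAbs : ℤ) ≤ ((g ^ ((s + 1) * E * K) : ℕ) : ℤ) := by
        rw [Int.natCast_natAbs]
        push_cast
        exact e3
      exact_mod_cast e5)
    A hA (by rw [← choices_eq]; exact hprod)
  have hW : Pool.Agent.Y816.PD.WG (value F G N) (g ^ K) = density F G N (g ^ K) := rfl
  rw [hW, ← choices_eq] at hlow hup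
  constructor
  · rintro ⟨d, hd, hd1⟩
    have h3 := hlow ⟨d, hd, hd1⟩
    rw [mul_right_comm]
    refine h3.trans (Nat.cast_le.2 ?_)
    refine ND_le_count fun n hn1 hn => ?_
    obtain ⟨hn3, hn4⟩ := hn
    have hne : value F G N n ≠ 0 := by
      intro h0
      have h4 := hn3 2 Nat.prime_two (by rw [h0]; simp)
      omega
    have hi : ∀ i, (F i).eval (n : ℤ) ∣ value F G N n := fun i =>
      (dvd_prod_of_mem (fun i => (F i).eval (n : ℤ)) (mem_univ i)).mul_right _
    have hl : ((N : ℤ) - G.eval (n : ℤ)) ∣ value F G N n := Dvd.intro_left _ rfl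
    exact ⟨fun i => ⟨fun p hp hpd => hn3 p hp (hpd.trans (hi i)), (length_le_of_dvd (hi i) hne).trans hn4⟩,
      fun p hp hpd => hn3 p hp (hpd.trans hl), (length_le_of_dvd hl hne).trans hn4⟩
  · rw [mul_right_comm]
    refine le_trans (Nat.cast_le.2 ?_) hup
    refine count_le_ND fun n hn1 hn => ?_
    obtain ⟨hn3, hn4⟩ := hn
    intro p hp hpd
    have hpz := Nat.prime_iff_prime_int.1 hp
    unfold value at hpd
    rcases hpz.dvd_or_dvd hpd with h5 | h5
    · obtain ⟨i, -, h6⟩ := (hpz.dvd_finsetProd_iff _).1 h5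
      exact hn3 i p hp h6
    · exact hn4 p hp h5

end Pool.Agent.Results.MP_0bf1d2_nt.RestrictedDigits
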